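import Pool.Agent.Y158.FQ.Stm

/-!
# Project FQ: the unramified covering of a Fermat quotient by the Fermat curve
-/

set_option autoImplicit false
set_option linter.all false

open Polynomial FF Pool.Agent.Y157.PS Pool.Agent.TH954 IsDedekindDomain NumberField

namespace Pool.Agent.Y279.FQ

/-- an algebraic closure of a function field is algebraic over the image of `k(x)` -/
lemma alg_up {k F Ω : Type} [Field k] [Field F] [Field Ω] [Algebra k F] [Algebra F Ω]
    [Algebra k Ω] [IsScalarTower k F Ω] [Algebra.IsAlgebraic F Ω] (x : F)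
    (hFx : Algebra.IsAlgebraic (IntermediateField.adjoin k {x}) F) :
    Algebra.IsAlgebraic (IntermediateField.adjoin k {algebraMap F Ω x}) Ω := by
  refine ⟨fun z => ?_⟩
  have h1 : Algebra.IsAlgebraic (IntermediateField.adjoin k {x}) Ω :=
    Algebra.IsAlgebraic.trans (IntermediateField.adjoin k {x}) F Ω
  obtain ⟨q, hq, hqz⟩ := h1.isAlgebraic z
  have hmem : ∀ e : IntermediateField.adjoin k {x},
      algebraMap F Ω (e : F) ∈ (IntermediateField.adjoin k {algebraMap F Ω x}).toSubfield := by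
    intro e
    have h2 : (IsScalarTower.toAlgHom k F Ω) (e : F) ∈
        (IntermediateField.adjoin k {x}).map (IsScalarTower.toAlgHom k F Ω) := ⟨e, e.2, rfl⟩
    rw [IntermediateField.adjoin_map, Set.image_singleton] at h2
    exact h2
  let i : IntermediateField.adjoin k {x} →+* IntermediateField.adjoin k {algebraMap F Ω x} :=
    ((algebraMap F Ω).comp (algebraMap (IntermediateField.adjoin k {x}) F)).codRestrict
      (IntermediateField.adjoin k {algebraMap F Ω x}).toSubfield hmem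
  refine ⟨q.map i, (Polynomial.map_ne_zero_iff i.injective).2 hq, ?_⟩
  rw [aeval_def, eval₂_map]
  rw [aeval_def] at hqz
  exact hqz

/-- units of a valuation ring: powers -/
lemma unit_zpow {F : Type} [Field F] (O : ValuationSubring F) {e : F} (h : e ∈ O) (h' : e⁻¹ ∈ O)
    (n : ℤ) : e ^ n ∈ O := by
  obtain ⟨m, rfl | rfl⟩ := n.eq_nat_or_neg
  · rw [zpow_natCast]
    exact pow_mem h m
  · rw [zpow_neg, zpow_natCast, ← inv_pow]
    exact pow_mem h' m

/-- an `ℓ`-th power up to units -/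
lemma exists_t_aux {F : Type} [Field F] (O : ValuationSubring F) {ℓ c b : ℕ} {x y e : F}
    (hc : Nat.Coprime c ℓ) (hx : x ≠ 0) (he0 : e ≠ 0) (he : e ∈ O) (he' : e⁻¹ ∈ O)
    (hy0 : y ≠ 0) (hy : y ^ ℓ = x ^ c * e ^ b) :
    ∃ t : F, t ≠ 0 ∧ x / t ^ ℓ ∈ O ∧ t ^ ℓ / x ∈ O := by
  obtain ⟨r, s, hrs⟩ := Nat.isCoprime_iff_coprime.2 hc
  refine ⟨y ^ r * x ^ s, mul_ne_zero (zpow_ne_zero _ hy0) (zpow_ne_zero _ hx), ?_⟩
  have h1 : (y ^ r * x ^ s) ^ ℓ = x * e ^ ((b : ℤ) * r) := by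
    have h2 : (y ^ r) ^ ℓ = (y ^ ℓ) ^ r := by
      rw [← zpow_natCast, ← zpow_mul, mul_comm, zpow_mul, zpow_natCast]
    have h3 : (x ^ s) ^ ℓ = x ^ (s * ℓ) := by
      rw [← zpow_natCast, ← zpow_mul]
    have h4 : (x ^ c * e ^ b) ^ r = x ^ (r * c) * e ^ ((b : ℤ) * r) := by
      rw [mul_zpow, ← zpow_natCast, ← zpow_natCast, ← zpow_mul, ← zpow_mul, mul_comm (c : ℤ) r]
    rw [mul_pow, h2, hy, h4, h3, mul_right_comm, ← zpow_add₀ hx, hrs, zpow_one]
  have h5 : e ^ ((b : ℤ) * r) ≠ 0 := zpow_ne_zero _ he0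
  rw [h1]
  constructor
  · have h6 : x / (x * e ^ ((b : ℤ) * r)) = e ^ (-((b : ℤ) * r)) := by
      rw [zpow_neg]
      field_simp
    rw [h6]
    exact unit_zpow O he he' _
  · have h6 : x * e ^ ((b : ℤ) * r) / x = e ^ ((b : ℤ) * r) := by
      field_simp
    rw [h6]
    exact unit_zpow O he he' _

lemma exists_t {F : Type} [Field F] (O : ValuationSubring F) {ℓ a b : ℕ} (hl : ℓ.Prime)
    {x y : F} (ha : ¬ ℓ ∣ a) (hab : ¬ ℓ ∣ a + b) (hx : x ≠ 0) (hx1 : 1 - x ≠ 0) (hy0 : y ≠ 0)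
    (hy : y ^ ℓ = x ^ a * (1 - x) ^ b) :
    ∃ t : F, t ≠ 0 ∧ x / t ^ ℓ ∈ O ∧ t ^ ℓ / x ∈ O := by
  have cop : ∀ n : ℕ, ¬ ℓ ∣ n → Nat.Coprime n ℓ := fun n hn =>
    ((Nat.Prime.coprime_iff_not_dvd hl).2 hn).symm
  by_cases h1 : x ∈ O
  · by_cases h2 : x⁻¹ ∈ O
    · refine ⟨1, one_ne_zero, ?_, ?_⟩
      · rw [one_pow, div_one]
        exact h1
      · rw [one_pow, one_div]
        exact h2
    · -- `x` is in the maximal ideal
      have h3 : 1 - x ∈ O := sub_mem (one_mem _) h1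
      have h4 : (1 - x)⁻¹ ∈ O := by
        by_contra h5
        rcases O.mem_or_inv_mem (1 - x)⁻¹ with h6 | h6
        · exact h5 h6
        have h7 : (1 - x : F) ∈ O.nonunits := by
          rw [ValuationSubring.mem_nonunits_iff_or]
          exact Or.inr h5
        have h8 : (x : F) ∈ O.nonunits := by
          rw [ValuationSubring.mem_nonunits_iff_or]
          exact Or.inr h2
        rw [ValuationSubring.mem_nonunits_iff] at h7 h8
        have h9 : O.valuation (1 : F) < 1 := by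
          have h10 : (1 : F) = (1 - x) + x := by ring
          rw [h10]
          exact lt_of_le_of_lt (Valuation.map_add _ _ _) (max_lt h7 h8)
        rw [map_one] at h9
        exact lt_irrefl _ h9
      exact exists_t_aux O (cop a ha) hx hx1 h3 h4 hy0 hy
  · -- `x` is not integral
    have h2 : x⁻¹ ∈ O := (O.mem_or_inv_mem x).resolve_left h1
    have h3 : x⁻¹ - 1 ∈ O := sub_mem h2 (one_mem _)
    have h0 : x⁻¹ - 1 ≠ 0 := by
      intro h
      apply hx1
      have h5 : x⁻¹ = 1 := by linear_combination h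
      have h6 : x = 1 := inv_eq_one.1 h5
      rw [h6]
      ring
    have h4 : (x⁻¹ - 1)⁻¹ ∈ O := by
      by_contra h5
      have h7 : (x⁻¹ - 1 : F) ∈ O.nonunits := by
        rw [ValuationSubring.mem_nonunits_iff_or]
        exact Or.inr h5
      have h8 : (x⁻¹ : F) ∈ O.nonunits := by
        rw [ValuationSubring.mem_nonunits_iff_or, inv_inv]
        exact Or.inr h1
      rw [ValuationSubring.mem_nonunits_iff] at h7 h8
      have h9 : O.valuation (1 : F) < 1 := by
        have h10 : (1 : F) = x⁻¹ - (x⁻¹ - 1) := by ring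
        rw [h10]
        exact lt_of_le_of_lt (Valuation.map_sub _ _ _) (max_lt h8 h7)
      rw [map_one] at h9
      exact lt_irrefl _ h9
    have hy' : y ^ ℓ = x ^ (a + b) * (x⁻¹ - 1) ^ b := by
      have h5 : 1 - x = x * (x⁻¹ - 1) := by
        rw [mul_sub, mul_inv_cancel₀ hx, mul_one]
      rw [hy, h5, mul_pow, pow_add]
      ring
    exact exists_t_aux O (cop (a + b) hab) hx h0 h3 h4 hy0 hy'

theorem unr : Pool.Agent.Y158.FQ.S_UNR := by
  intro ℓ hp a b ha hb hab k F Ω _ _ _ _ _ _ _ _ _ _ x y hx hFx hxy u w hu hw U hU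
  have hl := hp.out
  obtain ⟨F₀, hF₀⟩ : ∃ F₀ : IntermediateField k Ω,
    F₀ = IntermediateField.adjoin k {u, w} := ⟨_, rfl⟩
  have huF : u ∈ F₀ := by
    rw [hF₀]; exact IntermediateField.subset_adjoin k _ (by simp)
  have hwF : w ∈ F₀ := by
    rw [hF₀]; exact IntermediateField.subset_adjoin k _ (by simp)
  rw [← hF₀]
  have hx0 : x ≠ 0 := by
    rintro rfl
    exact hx isAlgebraic_zero
  have hx1 : 1 - x ≠ 0 := by
    intro h
    have h1 : x = 1 := (sub_eq_zero.1 h).symm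
    rw [h1] at hx
    exact hx isAlgebraic_one
  have hy0 : y ≠ 0 := by
    rintro rfl
    rw [zero_pow hl.ne_zero] at hxy
    exact (mul_ne_zero (pow_ne_zero _ hx0) (pow_ne_zero _ hx1)) hxy.symm
  have hu0 : u ≠ 0 := by
    rintro rfl
    rw [zero_pow hl.ne_zero] at hu
    exact hx0 ((map_eq_zero (algebraMap F Ω)).1 hu.symm)
  have hw0 : w ≠ 0 := by
    rintro rfl
    rw [zero_pow hl.ne_zero] at hw
    exact hx1 ((map_eq_zero (algebraMap F Ω)).1 hw.symm)
  have hkx : Algebra.IsAlgebraic (IntermediateField.adjoin k {algebraMap F Ω x}) Ω :=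
    alg_up x hFx
  haveI hFΩ : Algebra.IsAlgebraic F₀ Ω :=
    Pool.Agent.Y158.GR.alg_sub hkx F₀ one_ne_zero (by
      rw [pow_one, ← hu]
      exact pow_mem huF ℓ)
  have htop : IntermediateField.adjoin k {(⟨u, huF⟩ : F₀), ⟨w, hwF⟩} =
      (⊤ : IntermediateField k F₀) := by
    apply IntermediateField.map_injective F₀.val
    rw [IntermediateField.adjoin_map, Set.image_pair, ← AlgHom.fieldRange_eq_map,
      IntermediateField.fieldRange_val]
    exact hF₀.symm
  have hut : Transcendental k (⟨u, huF⟩ : F₀) := by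
    rw [← transcendental_algebraMap_iff (R := k) (A := Ω) (algebraMap F₀ Ω).injective]
    intro h
    have h1 : IsAlgebraic k (u ^ ℓ) := IsAlgebraic.pow h ℓ
    rw [hu] at h1
    exact hx ((isAlgebraic_algebraMap_iff (algebraMap F Ω).injective).1 h1)
  have hxy0 : (⟨u, huF⟩ : F₀) ^ ℓ + (⟨w, hwF⟩ : F₀) ^ ℓ = 1 := by
    apply Subtype.ext
    change u ^ ℓ + w ^ ℓ = 1
    rw [hu, hw, ← map_add, add_sub_cancel, map_one]
  have halg : Algebra.IsAlgebraic (IntermediateField.adjoin k {(⟨u, huF⟩ : F₀)}) F₀ :=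
    alg_of_eqn hl.pos (1 - X ^ ℓ) 1 one_ne_zero (⟨u, huF⟩ : F₀) ⟨w, hwF⟩ (by
      rw [map_one, one_mul, map_sub, map_pow, aeval_X, map_one]
      linear_combination hxy0) htop
  haveI : IsAlgClosure F₀ Ω := ⟨inferInstance, inferInstance⟩
  obtain ⟨h1, -⟩ := a_inrt ℓ k F₀ Ω (⟨u, huF⟩ : F₀) hut halg
  intro z hz
  rw [Pool.Agent.W620.SC.mem_unramified]
  intro W hW τ hτ
  have hWk : ∀ c : k, algebraMap k Ω c ∈ W := by
    intro c
    have h4 := hU _ hW c
    rw [ValuationSubring.mem_comap] at h4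
    rwa [IsScalarTower.algebraMap_apply k F Ω]
  have root : ∀ (v : Ω) (x' : F), x' ≠ 0 → v ≠ 0 → v ^ ℓ = algebraMap F Ω x' →
      (∃ t : F, t ≠ 0 ∧ x' / t ^ ℓ ∈ W.comap (algebraMap F Ω) ∧
        t ^ ℓ / x' ∈ W.comap (algebraMap F Ω)) → τ v = v := by
    rintro v x' hx' hv hvx ⟨t, ht, h2, h3⟩
    rw [ValuationSubring.mem_comap] at h2 h3
    refine Pool.Agent.W620.SC.inertia_root (t := algebraMap F Ω t) hWk hτ hl.pos ?_ ?_ ?_ hv ?_ ?_
    · rw [hvx]
      exact τ.commutes x'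
    · exact τ.commutes t
    · exact (map_ne_zero (algebraMap F Ω)).2 ht
    · rw [hvx, ← map_pow, ← map_div₀]
      exact h2
    · rw [hvx, ← map_pow, ← map_div₀]
      exact h3
  have hτu : τ u = u := root u x hx0 hu0 hu (exists_t _ hl ha hab hx0 hx1 hy0 hxy)
  have hτw : τ w = w := root w (1 - x) hx1 hw0 hw (exists_t _ hl hb (by rwa [add_comm]) hx1
    (by rw [sub_sub_cancel]; exact hx0) hy0 (by rw [sub_sub_cancel, hxy, mul_comm]))
  have hfix : ∀ v ∈ F₀, τ v = v := by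
    intro v hv
    rw [hF₀] at hv
    induction hv using IntermediateField.adjoin_induction with
    | mem v hv =>
      rcases hv with rfl | hv
      · exact hτu
      · rw [Set.mem_singleton_iff] at hv
        rw [hv]
        exact hτw
    | algebraMap c =>
      rw [IsScalarTower.algebraMap_apply k F Ω]
      exact τ.commutes _
    | add v v' _ _ h h' => rw [map_add, h, h']
    | inv v _ h => rw [map_inv₀, h]
    | mul v v' _ _ h h' => rw [map_mul, h, h']
  obtain ⟨σ, hσ⟩ : ∃ σ : Ω ≃ₐ[F₀] Ω, ∀ v, σ v = τ v :=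
    ⟨AlgEquiv.ofRingEquiv (f := τ.toRingEquiv) (fun r => hfix _ r.2), fun v => rfl⟩
  rw [← hσ z]
  refine h1 W hWk σ (fun v => ?_) (fun v hv => ?_) z hz
  · rw [hσ]
    constructor
    · intro hv
      have h3 := (Pool.Agent.W620.SC.inertia_spec (inv_mem hτ) hv).1
      have h4 : (τ⁻¹ : Ω ≃ₐ[F] Ω) (τ v) = v := τ.symm_apply_apply v
      change (τ⁻¹ : Ω ≃ₐ[F] Ω) (τ v) ∈ W at h3
      rw [h4] at h3
      exact h3
    · intro hv
      exact (Pool.Agent.W620.SC.inertia_spec hτ hv).1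
  · rw [hσ]
    exact (Pool.Agent.W620.SC.inertia_spec hτ hv).2

end Pool.Agent.Y279.FQ
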